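import Pool.Agent.Lib.MP_15f43f_co.Oe.Step

/-! The fortress: the defender always has a move back into it. -/

set_option autoImplicit false

namespace Pool.Agent.Lib.MP_15f43f_co.Oe

open Pool.Agent.Lib.MP_15f43f_co.Od (start PlayFrom)

variable {d : Color} {β : Board} {nb : ℤ} {s t : Sq} {k : Kind}

def NotOwn (d : Color) (β : Board) (f r : ℤ) : Prop :=
  ∀ s, F s = f → R d s = r → ∀ k, β s ≠ some (d, k)

theorem At.notOwn {f r : ℤ} (h : At d β f r none) : NotOwn d β f r := fun u a b k e => by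
  rw [h u a b] at e
  cases e

theorem NotOwn.putA {f r : ℤ} (h : NotOwn d β f r) : NotOwn d (put β s t d.opp k) f r :=
  fun u a b k' e => by
  rcases put_some e with ⟨-, c⟩ | ⟨-, -, c⟩
  · exact opp_ne d (congrArg Prod.fst c).symm
  · exact h u a b k' c

theorem NotOwn.put {f r : ℤ} (h : NotOwn d β f r) (h2 : ¬ (F t = f ∧ R d t = r)) :
    NotOwn d (put β s t d k) f r := fun u a b k' e => by
  rcases put_some e with ⟨rfl, -⟩ | ⟨-, -, c⟩
  · exact h2 ⟨a, b⟩
  · exact h u a b k' c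

def Sh (d : Color) (β : Board) : Prop :=
  (At d β 2 0 (some (d, .bishop)) ∧
    ((At d β 4 0 (some (d, .king)) ∧ At d β 6 0 (some (d, .knight)) ∧ NotOwn d β 4 1) ∨
     (At d β 4 0 (some (d, .king)) ∧ At d β 4 1 (some (d, .knight)) ∧ At d β 6 0 none) ∨
     (No d β .bishop ∧ At d β 4 0 (some (d, .king)) ∧ At d β 4 1 none) ∨
     (No d β .bishop ∧ At d β 4 1 (some (d, .king)) ∧ At d β 4 0 none))) ∨
  (No d β .knight ∧ ∃ x : ℕ, (x = 0 ∨ x = 4) ∧
    ((At d β 2 0 (some (d, .bishop)) ∧ At d β x 2 none) ∨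
     (At d β x 2 (some (d, .bishop)) ∧ At d β 2 0 none)))

def L2 (d : Color) (β : Board) : Prop :=
  Base d β 3 ∧ At d β 0 3 (some (d, .pawn)) ∧ At d β 4 3 (some (d, .pawn)) ∧ Sh d β

theorem L2.step {β' : Board} (h : L2 d β)
    (m : ∃ s t k, β' = put β s t d.opp k ∧ Mv d β 3 s t k) :
    ∃ β'', Pseudo β' d β'' ∧ L2 d β'' := by
  obtain ⟨h, a4, e4, sh⟩ := h
  obtain ⟨s, t, k, e0, mv⟩ := m
  subst e0
  have m := mv
  clear mv
  have bt := F_bd t
  have g : Tg d β 3 t k := h.tg m fun _ e _ _ => by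
    have := a4.full e
    have := e4.full e
    omega
  have h' := h.after le_rfl m g
  obtain ⟨m1, m2, m3, -⟩ := m
  have kp : ∀ {f r : ℤ} {o : Option (Color × Kind)}, At d β f r o →
      (o = none ∨ ∃ k', o = some (d, k')) → ¬ (F t = f ∧ R d t = r) →
      At d (put β s t d.opp k) f r o := fun a b c => a.putA b m1 c
  have a4' := kp a4 (.inr ⟨_, rfl⟩) (by rcases g with ⟨-, g⟩ | ⟨-, -, g⟩ | ⟨-, g⟩ | ⟨-, g⟩ <;> omega)
  have e4' := kp e4 (.inr ⟨_, rfl⟩) (by rcases g with ⟨-, g⟩ | ⟨-, -, g⟩ | ⟨-, g⟩ | ⟨-, g⟩ <;> omega)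
  have n0 : ∀ f : ℤ, ¬ (F t = f ∧ R d t = 0) := fun f => by
    rcases g with ⟨-, g⟩ | ⟨-, -, g⟩ | ⟨-, g⟩ | ⟨-, g⟩ <;> omega
  obtain ⟨c1, c1f, c1r⟩ := ex_sq d 2 0 (by omega) (by omega)
  obtain ⟨e1, e1f, e1r⟩ := ex_sq d 4 0 (by omega) (by omega)
  obtain ⟨e2, e2f, e2r⟩ := ex_sq d 4 1 (by omega) (by omega)
  obtain ⟨g1, g1f, g1r⟩ := ex_sq d 6 0 (by omega) (by omega)
  push_cast at c1f c1r e1f e1r e2f e2r g1f g1r
  have fin : ∀ (u v : Sq) (k' : Kind), Pseudo (put β s t d.opp k) d (put (put β s t d.opp k) u v d k') →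
      F v % 2 = 0 → R d v ≤ 2 → R d u ≤ 2 → (R d u = 1 → F u % 4 = 0) → (R d v = 1 → F v % 4 = 0) →
      (k' = .king → F v = 4 ∧ (R d v = 0 ∨
        (R d v = 1 ∧ No d (put (put β s t d.opp k) u v d k') .bishop))) →
      (k = .knight → R d t = 2 → t = v) → Sh d (put (put β s t d.opp k) u v d k') →
      ∃ β'', Pseudo (put β s t d.opp k) d β'' ∧ L2 d β'' := by
    intro u v k' p x1 x2 x3 x4 x5 x6 x7 x8
    refine ⟨_, p, h'.dm x1 (by omega) (by omega) x4 x5 x6 fun w a b => ?_,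
      a4'.put _ _ (by omega) (by omega), e4'.put _ _ (by omega) (by omega), x8⟩
    have := h'.kn a
    rcases put_some a with ⟨rfl, c⟩ | ⟨-, -, c⟩
    · by_contra n
      exact b (x7 (congrArg Prod.snd c).symm (by omega))
    · exact h.kn c
  have tn : ∀ k', put β s t d.opp k t ≠ some (d, k') := fun k' e => by
    rw [put_t] at e
    exact opp_ne d (congrArg Prod.fst (Option.some.inj e))
  rcases sh with ⟨b, sh⟩ | ⟨nn, x, hx, sh⟩
  · have b' := kp b (.inr ⟨_, rfl⟩) (n0 _)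
    by_cases hk : k = .knight ∧ R d t = 2
    · obtain ⟨rfl, r2⟩ := hk
      have ft : F t = 0 ∨ F t = 4 := by
        rcases g with ⟨c, -⟩ | ⟨c, -⟩ | ⟨c, -⟩ | ⟨-, g⟩
        · cases c
        · cases c
        · cases c
        · omega
      refine fin c1 t _ (mvB h'.odd (b' c1 c1f c1r) tn m3 (by omega) (by omega)) m3 (by omega)
        (by omega) (by omega) (by omega) nofun (fun _ _ => rfl)
        (.inr ⟨no_take fun u e => h'.uN u t e (put_t _ _ _ _ _), ?_⟩)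
      rcases ft with e | e
      · exact ⟨0, .inl rfl, .inr ⟨at_t _ _ _ _ e r2, at_s _ _ _ c1f c1r (by omega)⟩⟩
      · exact ⟨4, .inr rfl, .inr ⟨at_t _ _ _ _ e r2, at_s _ _ _ c1f c1r (by omega)⟩⟩
    have hk' : ∀ v, k = .knight → R d t = 2 → t = v := fun v x y => (hk ⟨x, y⟩).elim
    have nb : No d β .bishop → ¬ (F t = 4 ∧ R d t = 1) := fun n => by
      rcases g with ⟨-, g⟩ | ⟨-, -, g⟩ | ⟨rfl, -⟩ | ⟨-, g⟩
      · omega
      · omega
      · exact (n s m1).elim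
      · omega
    rcases sh with ⟨x1, x2, x3⟩ | ⟨x1, x2, x3⟩ | ⟨n, x1, x2⟩ | ⟨n, x1, x2⟩
    · have y1 := kp x1 (.inr ⟨_, rfl⟩) (n0 _)
      have y2 := kp x2 (.inr ⟨_, rfl⟩) (n0 _)
      exact fin g1 e2 _ (mvN (y2 g1 g1f g1r) (x3.putA e2 e2f e2r) (by omega) (by omega) (by omega))
        (by omega) (by omega) (by omega) (by omega) (by omega) nofun (hk' _)
        (.inl ⟨b'.put _ _ (by omega) (by omega), .inr (.inl ⟨y1.put _ _ (by omega) (by omega),
          at_t _ _ _ _ e2f e2r, at_s _ _ _ g1f g1r (by omega)⟩)⟩)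
    · have y1 := kp x1 (.inr ⟨_, rfl⟩) (n0 _)
      have y3 := kp x3 (.inl rfl) (n0 _)
      by_cases e : F t = 4 ∧ R d t = 1
      · obtain rfl : k = .bishop := by
          rcases g with ⟨-, g⟩ | ⟨-, -, g⟩ | ⟨g, -⟩ | ⟨-, g⟩
          · omega
          · omega
          · exact g
          · omega
        have n : No d (put (put β s t d.opp .bishop) e1 t d .king) .bishop :=
          no_take fun u e => h'.uB u t e (put_t _ _ _ _ _)
        exact fin e1 t _ (mvK (y1 e1 e1f e1r) tn m3 (by omega) (by omega)) m3 (by omega)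
          (by omega) (by omega) (by omega) (fun _ => ⟨e.1, .inr ⟨e.2, n⟩⟩) (hk' _)
          (.inl ⟨b'.put _ _ (by omega) (by omega), .inr (.inr (.inr ⟨n,
            at_t _ _ _ _ e.1 e.2, at_s _ _ _ e1f e1r (by omega)⟩))⟩)
      · have y2 := kp x2 (.inr ⟨_, rfl⟩) e
        exact fin e2 g1 _ (mvN (y2 e2 e2f e2r) (y3.notOwn g1 g1f g1r) (by omega) (by omega)
          (by omega)) (by omega) (by omega) (by omega) (by omega) (by omega) nofun (hk' _)
          (.inl ⟨b'.put _ _ (by omega) (by omega), .inl ⟨y1.put _ _ (by omega) (by omega),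
            at_t _ _ _ _ g1f g1r, (at_s _ _ _ e2f e2r (by omega)).notOwn⟩⟩)
    · have y1 := kp x1 (.inr ⟨_, rfl⟩) (n0 _)
      have y2 := kp x2 (.inl rfl) (nb n)
      have n' : No d (put (put β s t d.opp k) e1 e2 d .king) .bishop := (n.putA m1).putD
      exact fin e1 e2 _ (mvK (y1 e1 e1f e1r) (y2.notOwn e2 e2f e2r) (by omega) (by omega)
        (by omega)) (by omega) (by omega) (by omega) (by omega) (by omega)
        (fun _ => ⟨e2f, .inr ⟨e2r, n'⟩⟩) (hk' _)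
        (.inl ⟨b'.put _ _ (by omega) (by omega), .inr (.inr (.inr ⟨n',
          at_t _ _ _ _ e2f e2r, at_s _ _ _ e1f e1r (by omega)⟩))⟩)
    · have y1 := kp x1 (.inr ⟨_, rfl⟩) (nb n)
      have y2 := kp x2 (.inl rfl) (n0 _)
      have n' : No d (put (put β s t d.opp k) e2 e1 d .king) .bishop := (n.putA m1).putD
      exact fin e2 e1 _ (mvK (y1 e2 e2f e2r) (y2.notOwn e1 e1f e1r) (by omega) (by omega)
        (by omega)) (by omega) (by omega) (by omega) (by omega) (by omega)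
        (fun _ => ⟨e1f, .inl e1r⟩) (hk' _)
        (.inl ⟨b'.put _ _ (by omega) (by omega), .inr (.inr (.inl ⟨n',
          at_t _ _ _ _ e1f e1r, at_s _ _ _ e2f e2r (by omega)⟩))⟩)
  · have hk' : ∀ v, k = .knight → R d t = 2 → t = v := fun v x _ => (nn s (x ▸ m1)).elim
    have n2 : ¬ (F t = x ∧ R d t = 2) := by
      rcases g with ⟨-, g⟩ | ⟨-, -, g⟩ | ⟨-, g⟩ | ⟨rfl, -⟩
      · omega
      · omega
      · omega
      · exact (nn s m1).elim
    obtain ⟨w, wf, wr⟩ := ex_sq d x 2 (by omega) (by omega)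
    push_cast at wr
    rcases sh with ⟨x1, x2⟩ | ⟨x1, x2⟩
    · have y1 := kp x1 (.inr ⟨_, rfl⟩) (n0 _)
      have y2 := kp x2 (.inl rfl) n2
      exact fin c1 w _ (mvB h'.odd (y1 c1 c1f c1r) (y2.notOwn w wf wr) (by omega) (by omega)
        (by omega)) (by omega) (by omega) (by omega) (by omega) (by omega) nofun (hk' _)
        (.inr ⟨(nn.putA m1).putD, x, hx,
          .inr ⟨at_t _ _ _ _ wf wr, at_s _ _ _ c1f c1r (by omega)⟩⟩)
    · have y1 := kp x1 (.inr ⟨_, rfl⟩) n2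
      have y2 := kp x2 (.inl rfl) (n0 _)
      exact fin w c1 _ (mvB h'.odd (y1 w wf wr) (y2.notOwn c1 c1f c1r) (by omega) (by omega)
        (by omega)) (by omega) (by omega) (by omega) (by omega) (by omega) nofun (hk' _)
        (.inr ⟨(nn.putA m1).putD, x, hx,
          .inl ⟨at_t _ _ _ _ c1f c1r, at_s _ _ _ wf wr (by omega)⟩⟩)

end Pool.Agent.Lib.MP_15f43f_co.Oe
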