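import Pool.Agent.Lib.MP_15f43f_co.Oe.Fort

/-! The first two moves of the defender, and the theorem. -/

set_option autoImplicit false

namespace Pool.Agent.Lib.MP_15f43f_co.Oe

open Pool.Agent.Lib.MP_15f43f_co.Od (start PlayFrom)

variable {d : Color} {β : Board}

def Home (d : Color) (β : Board) : Prop :=
  At d β 2 0 (some (d, .bishop)) ∧ At d β 4 0 (some (d, .king)) ∧ At d β 6 0 (some (d, .knight))

/-- file `y` can wait one move -/
def Wait (d : Color) (β : Board) (y : ℤ) : Prop :=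
  At d β y 1 (some (d, .pawn)) ∧ At d β y 2 none ∧ At d β y 3 none ∧
    (∀ s, β s = some (d.opp, .pawn) → F s = y → 5 ≤ R d s) ∧
    ∀ s, β s = some (d.opp, .bishop) → F s - y ≠ R d s - 1 ∧ y - F s ≠ R d s - 1

def L1 (d : Color) (β : Board) : Prop :=
  Base d β 5 ∧ Home d β ∧ ∃ y : ℕ, (y = 0 ∨ y = 4) ∧ At d β (4 - y) 3 (some (d, .pawn)) ∧
    Wait d β y ∧ (y = 0 → NotOwn d β 4 1)

theorem L1.step {β' : Board} (h : L1 d β)
    (m : ∃ s t k, β' = put β s t d.opp k ∧ Mv d β 5 s t k) :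
    ∃ β'', Pseudo β' d β'' ∧ L2 d β'' := by
  obtain ⟨h, ⟨b, k0, n0⟩, y, hy, x3, ⟨y1, y2, y3, w1, w2⟩, e2⟩ := h
  obtain ⟨s, t, k, e0, mv⟩ := m
  subst e0
  have m := mv
  clear mv
  have bt := F_bd t
  have rs := R_bd d s
  have g : Tg d β 5 t k := h.tg m fun a e _ _ => by
    subst a
    have := x3.full e
    have := w1 s m.1
    rcases m.2.2.2 with ⟨c, -⟩ | ⟨c, -⟩ | ⟨c, -⟩ | ⟨-, -, c⟩
    · cases c
    · cases c
    · cases c
    · omega
  have h' := h.after (by omega) m g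
  obtain ⟨m1, m2, m3, m4⟩ := m
  have z0 : ∀ f : ℤ, ¬ (F t = f ∧ R d t = 0) := fun f => by
    rcases g with ⟨-, g⟩ | ⟨-, -, g⟩ | ⟨-, g⟩ | ⟨-, g⟩ <;> omega
  have z1 : ¬ (F t = y ∧ R d t = 1) := by
    rcases m4 with ⟨-, c⟩ | ⟨rfl, c⟩ | ⟨-, c⟩ | ⟨-, c, -⟩
    · omega
    · have := w2 s m1
      omega
    · omega
    · exact y1.full c
  have z2 : ∀ f r : ℤ, f % 4 = 0 → r = 2 ∨ r = 3 → ¬ (F t = f ∧ R d t = r) := fun f r _ _ => by
    rcases g with ⟨-, g⟩ | ⟨-, -, g⟩ | ⟨-, g⟩ | ⟨-, g⟩ <;> omega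
  obtain ⟨u, uf, ur⟩ := ex_sq d y 1 (by omega) (by omega)
  obtain ⟨v, vf, vr⟩ := ex_sq d y 3 (by omega) (by omega)
  push_cast at ur vr
  have x3' := (x3.putA (.inr ⟨_, rfl⟩) m1 (z2 _ _ (by omega) (.inr rfl))).put (s := u) (t := v)
    d .pawn (by omega) (by omega)
  have y3' : At d (put (put β s t d.opp k) u v d .pawn) y 3 (some (d, .pawn)) := at_t _ _ _ _ vf vr
  refine ⟨_, mvP (y1.putA (.inr ⟨_, rfl⟩) m1 z1 u uf ur)
    (y3.putA (.inl rfl) m1 (z2 _ _ (by omega) (.inr rfl)) v vf vr) (by omega) (by omega) ur vr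
    (uf ▸ y2.putA (.inl rfl) m1 (z2 _ _ (by omega) (.inl rfl))),
    h'.dm (by omega) (by omega) (by omega) (by omega) (by omega) nofun
      (fun w a _ => by have := h'.kn a; omega), ?_, ?_,
    .inl ⟨(b.putA (.inr ⟨_, rfl⟩) m1 (z0 _)).put _ _ (by omega) (by omega),
      .inl ⟨(k0.putA (.inr ⟨_, rfl⟩) m1 (z0 _)).put _ _ (by omega) (by omega),
        (n0.putA (.inr ⟨_, rfl⟩) m1 (z0 _)).put _ _ (by omega) (by omega), ?_⟩⟩⟩
  · rcases hy with rfl | rfl
    · exact y3'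
    · exact x3'
  · rcases hy with rfl | rfl
    · exact x3'
    · exact y3'
  · rcases hy with rfl | rfl
    · exact (e2 rfl).putA.put (by omega)
    · exact (at_s _ _ _ uf ur (by omega)).notOwn

theorem toL1 (h : Base d β 5) (o : Home d β) (y : ℕ) (hy : y = 0 ∨ y = 4)
    (x1 : At d β (4 - y) 1 (some (d, .pawn))) (x2 : At d β (4 - y) 2 none)
    (x3 : At d β (4 - y) 3 none) (w : Wait d β y) : ∃ β', Pseudo β d β' ∧ L1 d β' := by
  obtain ⟨u, uf, ur⟩ := ex_sq d (4 - y) 1 (by omega) (by omega)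
  obtain ⟨v, vf, vr⟩ := ex_sq d (4 - y) 3 (by omega) (by omega)
  have uf' : F u = 4 - y := by omega
  have vf' : F v = 4 - y := by omega
  push_cast at ur vr
  obtain ⟨y1, y2, y3, w1, w2⟩ := w
  have old : ∀ z k', put β u v d .pawn z = some (d.opp, k') → β z = some (d.opp, k') := by
    intro z k' e
    rcases put_some e with ⟨-, c⟩ | ⟨-, -, c⟩
    · exact (opp_ne d (congrArg Prod.fst c)).elim
    · exact c
  refine ⟨_, mvP (x1 u uf' ur) (x3 v vf' vr) (by omega) (by omega) ur vr (uf' ▸ x2),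
    h.dm (by omega) (by omega) (by omega) (by omega) (by omega) nofun (fun w a _ => h.kn a),
    ⟨o.1.put _ _ (by omega) (by omega), o.2.1.put _ _ (by omega) (by omega),
      o.2.2.put _ _ (by omega) (by omega)⟩, y, hy, at_t _ _ _ _ vf' vr,
    ⟨y1.put _ _ (by omega) (by omega), y2.put _ _ (by omega) (by omega),
      y3.put _ _ (by omega) (by omega), fun z a => w1 z (old _ _ a), fun z a => w2 z (old _ _ a)⟩,
    fun e => (at_s _ _ _ (by omega) ur (by omega)).notOwn⟩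

def L0 (d : Color) (β : Board) : Prop :=
  Base d β 7 ∧ Home d β ∧ (∀ f : ℤ, f % 4 = 0 → At d β f 1 (some (d, .pawn)) ∧ At d β f 2 none ∧
    At d β f 3 none) ∧ (∀ s, β s = some (d.opp, .pawn) → R d s = 6) ∧
    ∀ s, β s = some (d.opp, .bishop) → F s = 2 ∧ R d s = 7

theorem Base.mono {nb nb' : ℤ} (h : Base d β nb) (e : nb' ≤ nb) : Base d β nb' :=
  ⟨h.odd, h.c2, h.g2, fun s k a => (h.cls s k a).imp id (Or.imp id (Or.imp id
    fun c => ⟨c.1, c.2.1, e.trans c.2.2⟩)), h.kg, h.uN, h.uB, h.own⟩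

theorem L0.first (h : L0 d β) : ∃ β', Pseudo β d β' ∧ L1 d β' := by
  obtain ⟨h, o, p, w1, w2⟩ := h
  exact toL1 (h.mono (by omega)) o 4 (.inr rfl) (p _ (by omega)).1 (p _ (by omega)).2.1
    (p _ (by omega)).2.2 ⟨(p _ (by omega)).1, (p _ (by omega)).2.1, (p _ (by omega)).2.2,
      fun s a _ => by have := w1 s a; omega, fun s a => by have := w2 s a; omega⟩

theorem L0.step {β' : Board} (h : L0 d β)
    (m : ∃ s t k, β' = put β s t d.opp k ∧ Mv d β 7 s t k) :
    ∃ β'', Pseudo β' d β'' ∧ L1 d β'' := by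
  obtain ⟨h, ⟨b, k0, n0⟩, p, w1, w2⟩ := h
  obtain ⟨s, t, k, e0, mv⟩ := m
  subst e0
  have m := mv
  clear mv
  have bt := F_bd t
  have rt := R_bd d t
  have z : 3 ≤ R d t ∧ (F t % 4 = 0 → 4 ≤ R d t) ∧ (k = .bishop → F t - 2 = 7 - R d t ∨
      2 - F t = 7 - R d t) := by
    rcases m.2.2.2 with ⟨rfl, c⟩ | ⟨rfl, c⟩ | ⟨rfl, c⟩ | ⟨rfl, -, c⟩
    · exact ⟨by omega, by omega, nofun⟩
    · have := w2 s m.1
      have := m.2.2.1
      exact ⟨by omega, by omega, fun _ => by omega⟩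
    · exact ⟨by omega, by omega, nofun⟩
    · have := w1 s m.1
      exact ⟨by omega, by omega, nofun⟩
  have g : Tg d β 7 t k := h.tg m fun _ _ _ => by omega
  have h' := h.after (by omega) m g
  have m1 := m.1
  have m3 := m.2.2.1
  have key : ∀ y : ℕ, y = 0 ∨ y = 4 → (k = .pawn → F t = y → 5 ≤ R d t) →
      (k = .bishop → F t - y ≠ R d t - 1 ∧ y - F t ≠ R d t - 1) →
      ∃ β'', Pseudo (put β s t d.opp k) d β'' ∧ L1 d β'' := by
    intro y hy a1 a2
    refine toL1 (h'.mono (by omega)) ⟨b.putA (.inr ⟨_, rfl⟩) m1 (by omega),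
      k0.putA (.inr ⟨_, rfl⟩) m1 (by omega), n0.putA (.inr ⟨_, rfl⟩) m1 (by omega)⟩ y hy
      ((p _ (by omega)).1.putA (.inr ⟨_, rfl⟩) m1 (by omega))
      ((p _ (by omega)).2.1.putA (.inl rfl) m1 (by omega))
      ((p _ (by omega)).2.2.putA (.inl rfl) m1 (by omega))
      ⟨(p _ (by omega)).1.putA (.inr ⟨_, rfl⟩) m1 (by omega),
        (p _ (by omega)).2.1.putA (.inl rfl) m1 (by omega),
        (p _ (by omega)).2.2.putA (.inl rfl) m1 (by omega), fun u e f => ?_, fun u e => ?_⟩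
    · rcases put_some e with ⟨rfl, c⟩ | ⟨-, -, c⟩
      · exact a1 (congrArg Prod.snd c).symm f
      · have := w1 u c
        omega
    · rcases put_some e with ⟨rfl, c⟩ | ⟨-, -, c⟩
      · exact a2 (congrArg Prod.snd c).symm
      · have := w2 u c
        omega
  by_cases e : (F t = 0 ∧ R d t = 4) ∨ (F t = 4 ∧ R d t = 5)
  · exact key 4 (.inr rfl) (fun _ _ => by omega) fun a => by have := z.2.2 a; omega
  · exact key 0 (.inl rfl) (fun _ _ => by omega) fun a => by have := z.2.2 a; omega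

theorem start_val (w b : Bool) (s : Sq) (c : Color) (k : Kind)
    (h : (start w b).board s = some (c, k)) : F s % 2 = 0 ∧ ((k = .pawn ∧ R c s = 1) ∨
      (R c s = 0 ∧ ((k = .rook ∧ F s = 0 ∧ (c = .white → w = true) ∧ (c = .black → b = true)) ∨
        (k = .bishop ∧ F s = 2) ∨ (k = .king ∧ F s = 4) ∨ (k = .knight ∧ F s = 6)))) := by
  obtain ⟨f, r⟩ := s
  fin_cases f <;> fin_cases r <;> simp [start, initBoard, backRank] at h <;>
    first
      | (obtain ⟨rfl, rfl⟩ := h; simp [F, R])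
      | (obtain ⟨h, rfl, rfl⟩ := h; simp [F, R, h])

theorem start_at (w b : Bool) (d : Color) : Home d (start w b).board ∧
    (∀ f : ℤ, f % 2 = 0 → At d (start w b).board f 1 (some (d, .pawn))) := by
  refine ⟨⟨?_, ?_, ?_⟩, fun f hf => ?_⟩ <;> rintro ⟨x, y⟩ h1 h2 <;> cases d <;>
    fin_cases x <;> fin_cases y <;> simp [F, R] at h1 h2 <;>
    first
      | omega
      | simp [start, initBoard, backRank]

theorem R_opp (d : Color) (s : Sq) : R d.opp s = 7 - R d s := by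
  cases d <;> simp [R, Color.opp]

theorem start_L0 (w b : Bool) (d : Color) : L0 d (start w b).board := by
  obtain ⟨o, p⟩ := start_at w b d
  have v : ∀ s k, (start w b).board s = some (d.opp, k) → (k = .pawn ∧ R d s = 6) ∨
      (R d s = 7 ∧ ((k = .bishop ∧ F s = 2) ∨ (k = .king ∧ F s = 4) ∨
        (k = .knight ∧ F s = 6) ∨ (k = .rook ∧ F s = 0))) := by
    intro s k e
    have r := R_opp d s
    rcases (start_val w b s _ k e).2 with ⟨a, c⟩ | ⟨a, ⟨c1, c2, -⟩ | c | c | c⟩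
    · exact .inl ⟨a, by omega⟩
    · exact .inr ⟨by omega, .inr (.inr (.inr ⟨c1, c2⟩))⟩
    · exact .inr ⟨by omega, .inl c⟩
    · exact .inr ⟨by omega, .inr (.inl c)⟩
    · exact .inr ⟨by omega, .inr (.inr (.inl c))⟩
  have em : ∀ f r : ℤ, r = 2 ∨ r = 3 → At d (start w b).board f r none := by
    intro f r hr s _ e
    cases x : (start w b).board s with
    | none => rfl
    | some y =>
      have a := (start_val w b s y.1 y.2 x).2
      have r1 := R_opp d s
      have : R y.1 s = R d s ∨ R y.1 s = R d.opp s := by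
        cases y.1 <;> cases d <;> simp [Color.opp]
      rcases a with ⟨-, a⟩ | ⟨a, -⟩ <;> omega
  refine ⟨⟨fun s e => ?_, p _ (by omega), p _ (by omega), fun s k e => ?_, ?_, fun s t a c => ?_,
    fun s t a c => ?_, fun t e => ?_⟩, o, fun f hf => ⟨p f (by omega), em _ _ (.inl rfl),
      em _ _ (.inr rfl)⟩, fun s e => ?_, fun s e => ?_⟩
  · cases x : (start w b).board s with
    | none => rfl
    | some y =>
      have := (start_val w b s y.1 y.2 x).1
      omega
  · rcases v s k e with ⟨a, c⟩ | ⟨a, ⟨c, f⟩ | ⟨c, f⟩ | ⟨c, f⟩ | ⟨c, f⟩⟩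
    · exact .inr (.inl ⟨a, by omega, by omega⟩)
    · exact .inr (.inr (.inl ⟨c, by omega⟩))
    · exact .inl (.inl c)
    · exact .inr (.inr (.inr ⟨c, by omega, by omega⟩))
    · exact .inl (.inr ⟨c, f, a⟩)
  · obtain ⟨u, uf, ur⟩ := ex_sq d.opp 4 1 (by omega) (by omega)
    have r := R_opp d u
    refine ⟨u, (start_at w b d.opp).2 4 (by omega) u uf ur, uf, fun s e => ?_⟩
    have := v s _ e
    simp only [reduceCtorEq, false_and, true_and, false_or, or_false] at this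
    omega
  · have x := v s _ a
    have y := v t _ c
    simp only [reduceCtorEq, false_and, true_and, false_or, or_false] at x y
    exact sq_ext d (by omega) (by omega)
  · have x := v s _ a
    have y := v t _ c
    simp only [reduceCtorEq, false_and, true_and, false_or, or_false] at x y
    exact sq_ext d (by omega) (by omega)
  · have x := (start_val w b t _ _ e).2
    simp only [reduceCtorEq, false_and, true_and, false_or, or_false] at x
    exact ⟨x.2, .inl x.1⟩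
  · have x := v s _ e
    simp only [reduceCtorEq, false_and, true_and, false_or, or_false, and_false] at x
    exact x
  · have x := v s _ e
    simp only [reduceCtorEq, false_and, true_and, false_or, or_false] at x
    exact ⟨x.2, x.1⟩

theorem back_d {β β' : Board} (m : Pseudo β d β') (u : Sq) (e : β' u = some (d.opp, .rook)) :
    β u = some (d.opp, .rook) := by
  rcases m with ⟨k, s, t, -, rfl⟩ | ⟨s, t, -, -, rfl⟩ | ⟨s, t, k, -, -, -, rfl⟩ <;>
    rcases put_some e with ⟨-, c⟩ | ⟨-, -, c⟩ <;>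
    first
      | exact c
      | exact (opp_ne d (congrArg Prod.fst c)).elim

theorem back_a {β β' : Board} {nb : ℤ} (m : ∃ s t k, β' = put β s t d.opp k ∧ Mv d β nb s t k)
    (u : Sq) (e : β' u = some (d.opp, .rook)) : β u = some (d.opp, .rook) := by
  obtain ⟨s, t, k, rfl, -, -, -, m⟩ := m
  rcases put_some e with ⟨-, c⟩ | ⟨-, -, c⟩
  · obtain rfl : Kind.rook = k := congrArg Prod.snd c
    rcases m with ⟨c, -⟩ | ⟨c, -⟩ | ⟨c, -⟩ | ⟨c, -⟩ <;> cases c
  · exact c

theorem first_rook (w b : Bool) (d : Color) (σ : List Pos → Pos) (hσ : IsStrategy d.opp σ) :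
    ∃ p, PlayFrom (start w b) d.opp σ p ∧ ∀ n, (p n).turn = d → Checkmated (p n) →
      ∃ s, (start w b).board s = some (d.opp, .rook) ∧ ∃ m < n, (p (m + 1)).board s = none := by
  have h0 := start_L0 w b d
  have sf : ∀ β, L1 d β ∨ L2 d β → ¬ InCheck β d := by
    rintro β (h | h)
    · exact h.1.safe (by omega)
    · exact h.1.safe (by omega)
  refine Exists.imp (fun p hp => ?_) (play (start w b) d
    (fun p => (p.turn = d.opp ∧ (L0 d p.board ∨ L1 d p.board ∨ L2 d p.board)) ∨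
      (p.turn = d ∧ ∃ β, Pseudo p.board d β ∧ (L1 d β ∨ L2 d β)))
    (fun p q => ∀ u, q.board u = some (d.opp, .rook) → p.board u = some (d.opp, .rook))
    (fun p q => ∃ s, p.board s = some (d.opp, .rook) ∧ q.board s = none) ?_ (fun _ _ e => e)
    (fun _ _ _ x y u e => x u (y u e)) ?_ ?_ σ hσ)
  · obtain ⟨p1, p2⟩ := hp
    refine ⟨p1, fun n x y => ?_⟩
    obtain ⟨m, m1, m2, s, m3, m4⟩ := p2 n x y
    exact ⟨s, m2 s m3, m, m1, m4⟩
  · cases d
    · exact .inr ⟨rfl, h0.first.imp fun _ x => ⟨x.1, .inl x.2⟩⟩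
    · exact .inl ⟨rfl, .inl h0⟩
  · rintro p (⟨a, -⟩ | ⟨-, β, m, h⟩) e
    · exact (opp_ne d (a.symm.trans e)).elim
    · exact ⟨⟨β, d.opp⟩, ⟨by rw [e], by rw [e]; exact m, by rw [e]; exact sf β h⟩,
        .inl ⟨rfl, .inr h⟩, back_d m⟩
  · rintro p q (⟨-, h⟩ | ⟨a, -⟩) e ⟨l1, l2, -⟩
    · rw [e] at l1 l2
      have tq : q.turn = d := by rw [l1]; cases d <;> rfl
      rcases h with h | h | h
      · exact (h.1.am l2).imp (fun m => ⟨.inr ⟨tq, (h.step m).imp fun _ x => ⟨x.1, .inl x.2⟩⟩,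
          back_a m⟩) id
      · exact (h.1.am l2).imp (fun m => ⟨.inr ⟨tq, (h.step m).imp fun _ x => ⟨x.1, .inr x.2⟩⟩,
          back_a m⟩) id
      · exact (h.1.am l2).imp (fun m => ⟨.inr ⟨tq, (h.step m).imp fun _ x => ⟨x.1, .inr x.2⟩⟩,
          back_a m⟩) id
    · exact (opp_ne d (e.symm.trans a)).elim

end Pool.Agent.Lib.MP_15f43f_co.Oe
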